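import Mathlib

namespace Pool.Agent.Results.MP_43f1fb_co.Full
open Equiv Function

/-- `s_i`, the transposition of `i` and `i+1` -/
def s (i : ℕ) : Perm ℕ := swap i (i + 1)

/-- the product `s_{j_1} ⋯ s_{j_m}` of a word -/
def prodW (w : List ℕ) : Perm ℕ := (w.map s).prod

/-- one commutation move -/
def Comm (u v : List ℕ) : Prop :=
  ∃ l r a b, (a + 2 ≤ b ∨ b + 2 ≤ a) ∧ u = l ++ a :: b :: r ∧ v = l ++ b :: a :: r

/-- the `t`-th block: the letters `1 ≤ i ≤ n-1` with `i ≡ t (mod 2)`, increasing -/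
def blk (n t : ℕ) : List ℕ := (List.range n).filter fun i => 1 ≤ i ∧ i % 2 = t % 2

/-- the first `q` blocks `c_odd, c_even, c_odd, …` -/
def wrd (n : ℕ) : ℕ → List ℕ
  | 0 => []
  | q + 1 => wrd n q ++ blk n (q + 1)

/-- `D_{n,p} = Pre(C(i_p))` -/
def Dom (n p : ℕ) : Set (Perm ℕ) :=
  {x | ∃ w, Relation.ReflTransGen Comm (wrd n (2 * p)) w ∧ ∃ u, u <+: w ∧ x = prodW u}

/-- `a <_x b`: `a` occurs before `b` in the one-line notation of `x` -/
def Bef (x : Perm ℕ) (a b : ℕ) : Prop := x.symm a < x.symm b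

def Valid (n p : ℕ) (H : ℕ → ℤ) : Prop :=
  (∀ j, 1 ≤ j → j < n → -1 ≤ H j ∧ H j ≤ 2 * p ∧ H j % 2 = j % 2) ∧
  (∀ j, 1 ≤ j → j + 1 < n → H (j + 1) = H j + 1 ∨ H j = H (j + 1) + 1) ∧
  ∀ j, ¬ (1 ≤ j ∧ j < n) → H j = 0

def Al (n p : ℕ) (H : ℕ → ℤ) (i : ℕ) : Prop :=
  1 ≤ i ∧ i < n ∧ H i + 2 ≤ 2 * p ∧
    ∀ j, 1 ≤ j → j < n → (j + 1 = i ∨ i + 1 = j) → H j = H i + 1

def inc (H : ℕ → ℤ) (i : ℕ) : ℕ → ℤ := fun j => if j = i then H j + 2 else H j

def Run (n p : ℕ) : (ℕ → ℤ) → List ℕ → (ℕ → ℤ) → Prop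
  | H, [], G => G = H
  | H, i :: w, G => Al n p H i ∧ Run n p (inc H i) w G

def Hq (n q : ℕ) : ℕ → ℤ := fun j =>
  if 1 ≤ j ∧ j < n then (if j % 2 = q % 2 then q else q - 1) else 0

variable {n p : ℕ}

theorem run_app {u v : List ℕ} : ∀ {H G}, Run n p H (u ++ v) G ↔ ∃ K, Run n p H u K ∧ Run n p K v G := by
  induction u with
  | nil => simp [Run]
  | cons i u ih => intro H G; simp [Run, ih, and_assoc]

theorem Valid.inc {H i} (h : Valid n p H) (a : Al n p H i) : Valid n p (inc H i) := by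
  obtain ⟨h1, h2, h3⟩ := h
  obtain ⟨a1, a2, a3, a4⟩ := a
  refine ⟨fun j b c => ?_, fun j b c => ?_, fun j b => ?_⟩
  · have := h1 j b c
    simp only [Full.inc]; split_ifs with e
    · subst e; omega
    · exact this
  · have := h2 j b c
    have := a4 j b (by omega)
    have := a4 (j + 1) (by omega) c
    simp only [Full.inc]; split_ifs with e e' e'
    · omega
    · subst e; omega
    · subst e'; omega
    · omega
  · have := h3 j b
    simp only [Full.inc]; split_ifs <;> omega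

theorem Run.valid {w : List ℕ} : ∀ {H G}, Valid n p H → Run n p H w G → Valid n p G := by
  induction w with
  | nil => intro H G h r; exact r ▸ h
  | cons i w ih => intro H G h r; exact ih (h.inc r.1) r.2

theorem inc_comm (H : ℕ → ℤ) (a b : ℕ) : inc (inc H a) b = inc (inc H b) a := by
  funext j; simp only [inc]; split_ifs <;> rfl

theorem Al.far {H a b} (h : Al n p H a) (f : a + 2 ≤ b ∨ b + 2 ≤ a) : Al n p (inc H b) a := by
  obtain ⟨a1, a2, a3, a4⟩ := h
  have e : inc H b a = H a := by simp only [inc]; rw [if_neg (by omega)]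
  refine ⟨a1, a2, by omega, fun j x y z => ?_⟩
  have : inc H b j = H j := by simp only [inc]; rw [if_neg (by omega)]
  rw [e, this]; exact a4 j x y z

theorem Al.far' {H a b} (h : Al n p (inc H b) a) (f : a + 2 ≤ b ∨ b + 2 ≤ a) : Al n p H a := by
  obtain ⟨a1, a2, a3, a4⟩ := h
  have e : inc H b a = H a := by simp only [inc]; rw [if_neg (by omega)]
  refine ⟨a1, a2, by omega, fun j x y z => ?_⟩
  have : inc H b j = H j := by simp only [inc]; rw [if_neg (by omega)]
  rw [← e, ← this]; exact a4 j x y z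

theorem run_comm {H G u v} (c : Comm u v) (h : Run n p H u G) : Run n p H v G := by
  obtain ⟨l, r, a, b, f, rfl, rfl⟩ := c
  rw [run_app] at h ⊢
  obtain ⟨K, h1, h2, h3, h4⟩ := h
  exact ⟨K, h1, h3.far' f.symm, h2.far f, inc_comm K a b ▸ h4⟩

theorem cons_cls {i : ℕ} {u v : List ℕ} (h : Relation.ReflTransGen Comm u v) :
    Relation.ReflTransGen Comm (i :: u) (i :: v) := by
  induction h with
  | refl => exact .refl
  | tail _ c ih =>
    obtain ⟨l, r, a, b, f, e, e'⟩ := c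
    exact ih.tail ⟨i :: l, r, a, b, f, by simp [e], by simp [e']⟩

theorem front {i : ℕ} {w : List ℕ} : ∀ {H G}, Run n p H w G → Al n p H i → H i < G i →
    ∃ w', Relation.ReflTransGen Comm w (i :: w') ∧ Run n p (inc H i) w' G := by
  induction w with
  | nil => intro H G r _ h; rw [show G = H from r] at h; omega
  | cons j w ih =>
    intro H G r a h
    by_cases e : j = i
    · subst e; exact ⟨w, .refl, r.2⟩
    have f : i + 2 ≤ j ∨ j + 2 ≤ i := by
      have := a.2.2.2 j r.1.1 r.1.2.1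
      have := r.1.2.2.2 i a.1 a.2.1
      omega
    obtain ⟨w', h1, h2⟩ := ih r.2 (a.far f) (by simp only [inc]; rw [if_neg (by omega)]; exact h)
    exact ⟨j :: w', (cons_cls h1).tail ⟨[], w', j, i, f.symm, rfl, rfl⟩, r.1.far f.symm,
      inc_comm H i j ▸ h2⟩

theorem reach {H T : ℕ → ℤ} (hH : Valid n p H) (hT : ∀ j, H j ≤ T j) (k : ℕ) :
    ∀ G w, Valid n p G → (∀ j, G j ≤ H j) → Run n p G w T →
      ∑ j ∈ Finset.range n, (H j - G j).toNat = k →
      ∃ u v, Relation.ReflTransGen Comm w (u ++ v) ∧ Run n p G u H := by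
  induction' k using Nat.strong_induction_on with k ih
  intro G w hG le r hk
  by_cases e : ∀ j, H j ≤ G j
  · exact ⟨[], w, .refl, funext fun j => le_antisymm (e j) (le j)⟩
  push Not at e
  have mem : ∀ j, G j < H j → 1 ≤ j ∧ j < n := fun j h => by
    by_contra c
    have := hG.2.2 j c; have := hH.2.2 j c; omega
  obtain ⟨i, hi, hm⟩ := Finset.exists_min_image ((Finset.range n).filter fun j => G j < H j) G
    (by obtain ⟨j, h⟩ := e; exact ⟨j, by simp [h, (mem j h).2]⟩)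
  simp only [Finset.mem_filter, Finset.mem_range] at hi hm
  obtain ⟨i1, i2⟩ := mem i hi.2
  have g1 := hG.1 i i1 i2
  have g2 := hH.1 i i1 i2
  have a : Al n p G i := by
    refine ⟨i1, i2, by omega, fun j x y z => ?_⟩
    have := hm j
    rcases z with rfl | rfl
    · have := hG.2.1 j x i2; have := hH.2.1 j x i2; omega
    · have := hG.2.1 i i1 y; have := hH.2.1 i i1 y; omega
  obtain ⟨w', h1, h2⟩ := front r a (hi.2.trans_le (hT i))
  obtain ⟨u, v, h3, h4⟩ := ih _ (by
    rw [← hk]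
    refine Finset.sum_lt_sum (fun j _ => ?_) ⟨i, by simpa using i2, ?_⟩ <;> simp only [inc] <;>
      split_ifs <;> omega) (inc G i) w' (hG.inc a) (fun j => by
    have := le j
    simp only [inc]; split_ifs with e
    · subst e; omega
    · exact this) h2 rfl
  exact ⟨i :: u, v, h1.trans (cons_cls h3), a, h4⟩

theorem valid_Hq {q : ℕ} (h : q ≤ 2 * p) : Valid n p (Hq n q) := by
  refine ⟨fun j a b => ?_, fun j a b => ?_, fun j a => ?_⟩ <;> simp only [Hq] <;> split_ifs <;> omega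

theorem run_blk {q : ℕ} (h : q + 1 ≤ 2 * p) : Run n p (Hq n q) (blk n (q + 1)) (Hq n (q + 1)) := by
  have : ∀ k ≤ n, Run n p (Hq n q) ((List.range k).filter fun i => 1 ≤ i ∧ i % 2 = (q + 1) % 2)
      fun j => if j < k then Hq n (q + 1) j else Hq n q j := by
    intro k hk
    induction k with
    | zero => simp [Run]
    | succ k ih =>
      rw [List.range_succ, List.filter_append, run_app]
      refine ⟨_, ih (by omega), ?_⟩
      by_cases c : 1 ≤ k ∧ k % 2 = (q + 1) % 2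
      · rw [List.filter_cons_of_pos (by simpa using c), List.filter_nil]
        refine ⟨⟨c.1, by omega, ?_, fun j x y z => ?_⟩, funext fun j => ?_⟩ <;>
          simp only [Hq, inc] <;> split_ifs <;> omega
      · rw [List.filter_cons_of_neg (by simpa using c), List.filter_nil]
        refine funext fun j => ?_
        simp only [Hq]; split_ifs <;> omega
  have e := this n le_rfl
  rwa [show (fun j => if j < n then Hq n (q + 1) j else Hq n q j) = Hq n (q + 1) from
    funext fun j => by simp only [Hq]; split_ifs <;> omega] at e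

theorem run_wrd {q : ℕ} (h : q ≤ 2 * p) : Run n p (Hq n 0) (wrd n q) (Hq n q) := by
  induction q with
  | zero => rfl
  | succ q ih => exact run_app.2 ⟨_, ih (by omega), run_blk h⟩

def cc (n a : ℕ) : ℤ := if a % 2 = 1 then a else 2 * n + 1 - a

def Cr (n a b i : ℕ) (t : ℤ) : Prop :=
  (cc n a + t - 1 = i ∨ cc n a + t - 1 = i + 2 * n) ∧ cc n b + t - 1 = 2 * n - i

def El (n : ℕ) (H : ℕ → ℤ) (i : ℕ) (t : ℤ) : Prop :=
  1 ≤ i ∧ i < n ∧ 1 ≤ t ∧ t ≤ H i ∧ t % 2 = i % 2

def Inv (n : ℕ) (H : ℕ → ℤ) (x : Perm ℕ) : Prop :=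
  (∀ j, ¬ (1 ≤ j ∧ j ≤ n) → x j = j) ∧
  (∀ j, 1 ≤ j → j ≤ n → (1 ≤ x j ∧ x j ≤ n) ∧ ∀ T : ℤ, 0 ≤ T → (j < n → T = H j ∨ T = H j + 1) →
    (∀ k, k + 1 = j → 1 ≤ k → T = H k ∨ T = H k + 1) →
    cc n (x j) + T = (if (j + T) % 2 = 1 then (j : ℤ) else 2 * n + 1 - j) ∨
    cc n (x j) + T = (if (j + T) % 2 = 1 then (j : ℤ) else 2 * n + 1 - j) + 2 * n) ∧
  (∀ a b, 1 ≤ a → a < b → b ≤ n → (Bef x b a ↔ ∃ i t, El n H i t ∧ Cr n a b i t)) ∧
  ∀ i t, El n H i t → ∃ a b, 1 ≤ a ∧ a < b ∧ b ≤ n ∧ Cr n a b i t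

theorem cc_rng {a : ℕ} (h : 1 ≤ a) (h' : a ≤ n) : 1 ≤ cc n a ∧ cc n a ≤ 2 * n := by
  simp only [cc]; split_ifs <;> omega

theorem cc_inj {a b : ℕ} (h : a ≤ n) (h' : b ≤ n) (e : cc n a = cc n b) : a = b := by
  simp only [cc] at e; split_ifs at e <;> omega

theorem inv0 (hn : 2 ≤ n) : Inv n (Hq n 0) 1 := by
  refine ⟨fun _ _ => rfl, fun j a b => ⟨⟨a, b⟩, fun T h0 h1 h2 => ?_⟩, fun a b _ h _ => ?_,
    fun i t h => ?_⟩
  · have e1 : j < n → j % 2 = 1 → T ≤ 0 := fun x y => by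
      have := h1 x
      simp only [Hq] at this; split_ifs at this <;> omega
    have e2 : 2 ≤ j → (j % 2 = 0 → T ≤ 0) ∧ T ≤ 1 := fun x => by
      have := h2 (j - 1) (by omega) (by omega)
      simp only [Hq] at this; split_ifs at this <;> omega
    simp only [cc, Perm.coe_one, id]
    split_ifs <;> omega
  · refine ⟨fun c => absurd (show b < a from c) (by omega), fun ⟨i, t, h, _⟩ => ?_⟩
    simp only [El, Hq] at h; split_ifs at h <;> omega
  · simp only [El, Hq] at h; split_ifs at h <;> omega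

theorem Inv.step (hp : 2 * p ≤ n) {H x i} (h : Inv n H x) (v : Valid n p H) (a : Al n p H i) :
    Inv n (inc H i) (x * s i) := by
  obtain ⟨h0, h1, h2, h3⟩ := h
  obtain ⟨a1, a2, a3, a4⟩ := a
  have g := v.1 i a1 a2
  obtain ⟨A, A'⟩ := h1 i a1 a2.le
  obtain ⟨B, B'⟩ := h1 (i + 1) (by omega) a2
  replace A' := A' (H i + 1) (by omega) (fun _ => Or.inr rfl) fun k e e' => by
    have := a4 k e' (by omega) (Or.inl e); omega
  replace B' := B' (H i + 1) (by omega) (fun e => by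
    have := a4 (i + 1) (by omega) e (Or.inr rfl); omega) fun k e e' => by
    rw [show k = i by omega]; omega
  rw [if_pos (by omega)] at A'
  rw [if_neg (by omega)] at B'
  have rA := cc_rng A.1 A.2
  have rB := cc_rng B.1 B.2
  have cr : Cr n (x i) (x (i + 1)) i (H i + 2) := by simp only [Cr]; omega
  have lt : x i < x (i + 1) := by
    rcases lt_trichotomy (x i) (x (i + 1)) with c | c | c
    · exact c
    · have := x.injective c; omega
    · obtain ⟨i', t', e, c'⟩ := (h2 _ _ B.1 c A.2).1 (by simp [Bef])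
      have := v.1 i' e.1 e.2.1
      simp only [Cr, El] at *; omega
  have xs : ∀ j, (x * s i) j = x (swap i (i + 1) j) := fun _ => rfl
  have el : ∀ j t, El n (inc H i) j t ↔ El n H j t ∨ (j = i ∧ t = H i + 2) := fun j t => by
    simp only [El, inc]; split_ifs with e
    · subst e; omega
    · omega
  refine ⟨fun j c => ?_, fun j c d => ?_, fun a b c d e => ?_, fun j t e => ?_⟩
  · rw [xs, swap_apply_of_ne_of_ne (by omega) (by omega)]; exact h0 j c
  · rw [xs]
    by_cases e1 : j = i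
    · subst e1
      rw [swap_apply_left]
      refine ⟨B, fun T t0 t1 t2 => ?_⟩
      have := t1 a2
      have := t2 (j - 1) (by omega)
      have := a4 (j - 1)
      simp only [inc] at *
      split_ifs at * <;> omega
    by_cases e2 : j = i + 1
    · subst e2
      rw [swap_apply_right]
      refine ⟨A, fun T t0 t1 t2 => ?_⟩
      have u1 := t2 i rfl a1
      have := a4 (i + 1) (by omega)
      simp only [inc, if_true] at u1
      simp only [inc, if_neg (show i + 1 ≠ i by omega)] at t1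
      split_ifs <;> omega
    rw [swap_apply_of_ne_of_ne e1 e2]
    refine ⟨(h1 j c d).1, fun T t0 t1 t2 => (h1 j c d).2 T t0 (fun e => ?_) fun k e e' => ?_⟩
    · simpa [inc, e1] using t1 e
    · simpa [inc, show k ≠ i by omega] using t2 k e e'
  · have sy : ∀ z, (x * s i).symm z = swap i (i + 1) (x.symm z) := fun z => by
      rw [symm_apply_eq, xs]; simp
    by_cases q : a = x i ∧ b = x (i + 1)
    · obtain ⟨rfl, rfl⟩ := q
      exact ⟨fun _ => ⟨i, _, (el _ _).2 (Or.inr ⟨rfl, rfl⟩), cr⟩, fun _ => by simp [Bef, sy]⟩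
    have q1 : ¬ (x.symm a = i ∧ x.symm b = i + 1) := fun ⟨u, w⟩ => q ⟨by simp [← u], by simp [← w]⟩
    have q2 : ¬ (x.symm a = i + 1 ∧ x.symm b = i) := fun ⟨u, w⟩ => by
      have e1 : a = x (i + 1) := by simp [← u]
      have e2 : b = x i := by simp [← w]
      omega
    have : Bef (x * s i) b a ↔ Bef x b a := by
      simp only [Bef, sy, swap_apply_def]; split_ifs <;> omega
    rw [this, h2 a b c d e]
    refine ⟨fun ⟨j, t, u, w⟩ => ⟨j, t, (el _ _).2 (Or.inl u), w⟩, fun ⟨j, t, u, w⟩ => ?_⟩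
    rcases (el _ _).1 u with u | ⟨rfl, rfl⟩
    · exact ⟨j, t, u, w⟩
    · have := cc_rng c (by omega : a ≤ n)
      exact absurd ⟨cc_inj (by omega) A.2 (by simp only [Cr] at *; omega),
        cc_inj e B.2 (by simp only [Cr] at *; omega)⟩ q
  · rcases (el _ _).1 e with u | ⟨rfl, rfl⟩
    · exact h3 j t u
    · exact ⟨_, _, A.1, lt, B.2, cr⟩

theorem Run.inv (hp : 2 * p ≤ n) {w : List ℕ} :
    ∀ {H G x}, Inv n H x → Valid n p H → Run n p H w G → Inv n G (x * prodW w) := by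
  induction w with
  | nil => intro H G x h _ r; rw [show G = H from r]; simpa [prodW] using h
  | cons i w ih =>
    intro H G x h v r
    have := ih (h.step hp v r.1) (v.inc r.1) r.2
    simpa [prodW, mul_assoc] using this

theorem inv_fun (hp : 2 * p ≤ n) (hn : 2 ≤ n) {H x y} (v : Valid n p H) (h : Inv n H x)
    (h' : Inv n H y) : x = y := by
  ext j
  by_cases c : 1 ≤ j ∧ j ≤ n
  · obtain ⟨T, t0, tn, t1, t2⟩ : ∃ T : ℤ, 0 ≤ T ∧ T ≤ n + 1 ∧ (j < n → T = H j ∨ T = H j + 1) ∧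
        (∀ k, k + 1 = j → 1 ≤ k → T = H k ∨ T = H k + 1) := by
      by_cases e : j = 1
      · have := v.1 1 le_rfl hn
        exact ⟨H 1 + 1, by omega, by omega, fun _ => by simp [e], fun k _ _ => by omega⟩
      obtain ⟨k, rfl⟩ : ∃ k, j = k + 1 := ⟨j - 1, by omega⟩
      have := v.1 k (by omega) (by omega)
      by_cases e' : k + 1 < n
      · have := v.2.1 k (by omega) e'
        have := v.1 (k + 1) (by omega) e'
        exact ⟨max (H k) (H (k + 1)), by omega, by omega, fun _ => by omega,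
          fun k' a _ => by rw [show k' = k by omega]; omega⟩
      · exact ⟨H k + 1, by omega, by omega, fun a => absurd a e',
          fun k' a _ => by rw [show k' = k by omega]; omega⟩
    obtain ⟨a1, a2⟩ := h.2.1 j c.1 c.2
    obtain ⟨b1, b2⟩ := h'.2.1 j c.1 c.2
    have := a2 T t0 t1 t2
    have := b2 T t0 t1 t2
    have := cc_rng a1.1 a1.2
    have := cc_rng b1.1 b1.2
    exact cc_inj a1.2 b1.2 (by omega)
  · rw [h.1 j c, h'.1 j c]

theorem ex_inv (hp : 2 * p ≤ n) (hn : 2 ≤ n) {H} (v : Valid n p H) : ∃ x ∈ Dom n p, Inv n H x := by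
  have v0 : Valid n p (Hq n 0) := valid_Hq (Nat.zero_le _)
  obtain ⟨u, w, h1, h2⟩ := reach (T := Hq n (2 * p)) v (fun j => by
    have := v.1 j; have := v.2.2 j
    simp only [Hq]; split_ifs <;> omega) _ _ _ v0 (fun j => by
    have := v.1 j; have := v.2.2 j
    simp only [Hq]; split_ifs <;> omega) (run_wrd le_rfl) rfl
  exact ⟨_, ⟨_, h1, u, List.prefix_append _ _, rfl⟩, by simpa using h2.inv hp (inv0 hn) v0⟩

theorem dom_iff (hp : 2 * p ≤ n) (hn : 2 ≤ n) {x : Perm ℕ} :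
    x ∈ Dom n p ↔ ∃ H, Valid n p H ∧ Inv n H x := by
  have v0 : Valid n p (Hq n 0) := valid_Hq (Nat.zero_le _)
  constructor
  · rintro ⟨w, h, u, ⟨v, rfl⟩, rfl⟩
    have : ∀ w, Relation.ReflTransGen Comm (wrd n (2 * p)) w →
        Run n p (Hq n 0) w (Hq n (2 * p)) := fun w h => by
      induction h with
      | refl => exact run_wrd le_rfl
      | tail _ c ih => exact run_comm c ih
    obtain ⟨K, h1, -⟩ := run_app.1 (this _ h)
    exact ⟨K, h1.valid v0, by simpa using h1.inv hp (inv0 hn) v0⟩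
  · rintro ⟨H, v, h⟩
    obtain ⟨y, hy, h'⟩ := ex_inv hp hn v
    exact inv_fun hp hn v h' h ▸ hy

theorem inv_uniq (hp : 2 * p ≤ n) {H G x} (v : Valid n p H) (v' : Valid n p G) (h : Inv n H x)
    (h' : Inv n G x) (j : ℕ) : G j ≤ H j := by
  by_contra c
  have m : 1 ≤ j ∧ j < n := by
    by_contra m
    have := v.2.2 j m; have := v'.2.2 j m; omega
  have := v.1 j m.1 m.2
  have := v'.1 j m.1 m.2
  have e : El n G j (G j) := ⟨m.1, m.2, by omega, le_rfl, by omega⟩
  obtain ⟨a, b, a1, a2, a3, cr⟩ := h'.2.2.2 j _ e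
  obtain ⟨i, t, e', cr'⟩ := (h.2.2.1 a b a1 a2 a3).1 ((h'.2.2.1 a b a1 a2 a3).2 ⟨j, _, e, cr⟩)
  have := v.1 i e'.1 e'.2.1
  have : i = j := by simp only [Cr, El] at *; omega
  subst this
  simp only [Cr, El] at *; omega

open Classical in
noncomputable def rf (n : ℕ) (c : ℤ) (i : ℕ) (H : ℕ → ℤ) : ℕ → ℤ := fun j =>
  if 1 ≤ j ∧ j < n ∧ ∀ k, min i j ≤ k → k ≤ max i j → H k ≠ c then 2 * c - H j else H j

theorem rf_ne (c : ℤ) (i : ℕ) (H : ℕ → ℤ) (k : ℕ) : rf n c i H k ≠ c ↔ H k ≠ c := by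
  simp only [rf]; split_ifs <;> omega

theorem rf_rf (c : ℤ) (i : ℕ) (H : ℕ → ℤ) : rf n c i (rf n c i H) = H := by
  funext j
  rw [rf]
  simp only [rf_ne]
  simp only [rf]
  split_ifs <;> omega

theorem side {H} (v : Valid n p H) (c : ℤ) (a : ℕ) (ha : 1 ≤ a) (b : ℕ) (hab : a ≤ b) :
    b < n → (∀ k, a ≤ k → k ≤ b → H k ≠ c) → (H a < c ↔ H b < c) := by
  induction b, hab using Nat.le_induction with
  | base => simp
  | succ b hab ih =>
    intro h1 h2
    have := ih (by omega) fun k x y => h2 k x (by omega)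
    have := v.2.1 b (by omega) h1
    have := h2 b hab (by omega)
    have := h2 (b + 1) (by omega) le_rfl
    omega

theorem valid_rf {H} (v : Valid n p H) (c : ℤ) {i : ℕ} (i1 : 1 ≤ i) (i2 : i < n)
    (h : ∀ y : ℤ, -1 ≤ y → y ≤ 2 * p → (y < c ↔ H i < c) → -1 ≤ 2 * c - y ∧ 2 * c - y ≤ 2 * p) :
    Valid n p (rf n c i H) := by
  refine ⟨fun j a b => ?_, fun j a b => ?_, fun j a => ?_⟩
  · have := v.1 j a b
    simp only [rf]; split_ifs with e
    · have : H j < c ↔ H i < c := by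
        rcases le_total i j with k | k
        · exact (side v c i i1 j k b fun z x y => e.2.2 z (by omega) (by omega)).symm
        · exact side v c j a i k i2 fun z x y => e.2.2 z (by omega) (by omega)
      have := h (H j) (by omega) (by omega) this
      omega
    · exact this
  · have := v.2.1 j a b
    simp only [rf]; split_ifs with e e' e'
    · omega
    · have : H j = c := by
        by_contra z
        refine e' ⟨a, by omega, fun k x y => ?_⟩
        by_cases f : k = j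
        · exact f ▸ z
        · exact e.2.2 k (by omega) (by omega)
      omega
    · have : H (j + 1) = c := by
        by_contra z
        refine e ⟨by omega, b, fun k x y => ?_⟩
        by_cases f : k = j + 1
        · exact f ▸ z
        · exact e'.2.2 k (by omega) (by omega)
      omega
    · omega
  · simp only [rf]; rw [if_neg (by tauto)]; exact v.2.2 j a

theorem fin_valid : {H | Valid n p H}.Finite := by
  refine Set.Finite.of_finite_image (f := fun H (j : Fin n) => H j)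
    ((Set.Finite.pi' fun _ : Fin n => Set.finite_Icc (-1 : ℤ) (2 * p)).subset ?_) ?_
  · rintro _ ⟨H, v, rfl⟩ j
    have := v.1 j; have := v.2.2 j; have := j.2
    simp only [Set.mem_Icc]; omega
  · intro H v G v' e
    funext j
    by_cases c : j < n
    · exact congrFun e ⟨j, c⟩
    · rw [v.2.2 j (by omega), v'.2.2 j (by omega)]

theorem count (hn : 3 ≤ n) (hp : 1 ≤ p) {i : ℕ} {t : ℤ} (i1 : 1 ≤ i) (i2 : i < n)
    (par : t % 2 = i % 2) :
    (t ≤ p → {H | Valid n p H ∧ ¬ t ≤ H i}.ncard < {H | Valid n p H ∧ t ≤ H i}.ncard) ∧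
    (p < t → {H | Valid n p H ∧ t ≤ H i}.ncard < {H | Valid n p H ∧ ¬ t ≤ H i}.ncard) := by
  have gen : ∀ (c : ℤ) (S S' : Set (ℕ → ℤ)) (q j : ℕ), (∀ H ∈ S, Valid n p H) →
      (∀ H ∈ S', Valid n p H) → (∀ H ∈ S, rf n c i H ∈ S') → Hq n q ∈ S' →
      (∀ k, 1 ≤ k → k < n → Hq n q k ≠ c) → 1 ≤ j → j < n →
      ¬ (-1 ≤ 2 * c - Hq n q j ∧ 2 * c - Hq n q j ≤ 2 * p) → S.ncard < S'.ncard := by
    intro c S S' q j h1 h2 h3 h4 h5 j1 j2 h6
    rw [← Set.ncard_image_of_injective S (LeftInverse.injective (rf_rf (n := n) c i))]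
    refine Set.ncard_lt_ncard ⟨by rintro _ ⟨H, a, rfl⟩; exact h3 H a, fun c' => ?_⟩
      (fin_valid.subset h2)
    obtain ⟨H, a, e⟩ := c' h4
    have := (h1 H a).1 j j1 j2
    rw [← rf_rf (n := n) c i H, e, rf, if_pos ⟨j1, j2, fun k x y => h5 k (by omega) (by omega)⟩]
      at this
    omega
  constructor <;> intro ht
  · refine gen (p - 1) _ _ (2 * p) 2 (fun _ h => h.1) (fun _ h => h.1) (fun H ⟨v, h⟩ => ?_)
      ⟨valid_Hq le_rfl, ?_⟩ (fun k a b => ?_) (by omega) (by omega) ?_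
    · have := v.1 i i1 i2
      refine ⟨valid_rf v _ i1 i2 fun y a b c => by omega, ?_⟩
      rw [rf, if_pos ⟨i1, i2, fun k x y => by rw [show k = i by omega]; omega⟩]
      omega
    all_goals simp only [Hq]; split_ifs <;> omega
  · refine gen p _ _ 0 1 (fun _ h => h.1) (fun _ h => h.1) (fun H ⟨v, h⟩ => ?_)
      ⟨valid_Hq (Nat.zero_le _), ?_⟩ (fun k a b => ?_) (by omega) (by omega) ?_
    · have := v.1 i i1 i2
      refine ⟨valid_rf v _ i1 i2 fun y a b c => by omega, ?_⟩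
      rw [rf, if_pos ⟨i1, i2, fun k x y => by rw [show k = i by omega]; omega⟩]
      omega
    all_goals simp only [Hq]; split_ifs <;> first | omega | contradiction

theorem ncard_eq (hp : 2 * p ≤ n) (hn : 2 ≤ n) (P : Perm ℕ → Prop) (Q : (ℕ → ℤ) → Prop)
    (h : ∀ H x, Valid n p H → Inv n H x → (P x ↔ Q H)) :
    {x ∈ Dom n p | P x}.ncard = {H | Valid n p H ∧ Q H}.ncard := by
  choose f f1 f2 using fun x hx => (dom_iff (x := x) hp hn).1 hx
  refine Set.ncard_congr (fun x hx => f x hx.1) (fun x hx => ⟨f1 _ _, (h _ _ (f1 _ _) (f2 _ _)).1 hx.2⟩)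
    (fun x y hx hy e => inv_fun hp hn (f1 x hx.1) (f2 x hx.1) (e ▸ f2 y hy.1)) fun H hH => ?_
  obtain ⟨x, hx, i⟩ := ex_inv hp hn hH.1
  exact ⟨x, ⟨hx, (h _ _ hH.1 i).2 hH.2⟩, funext fun j => le_antisymm
    (inv_uniq hp hH.1 (f1 _ _) i (f2 _ _) j) (inv_uniq hp (f1 _ _) hH.1 (f2 _ _) i j)⟩

theorem maj (hn : 3 ≤ n) (hp : 1 ≤ p) (hpn : 2 * p ≤ n) {a b : ℕ} (ha : 1 ≤ a) (hab : a < b)
    (hb : b ≤ n) :
    (Bef (prodW (wrd n p)) b a →
      {x ∈ Dom n p | Bef x a b}.ncard < {x ∈ Dom n p | Bef x b a}.ncard) ∧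
    (¬ Bef (prodW (wrd n p)) b a →
      {x ∈ Dom n p | Bef x b a}.ncard < {x ∈ Dom n p | Bef x a b}.ncard) := by
  have v0 : Valid n p (Hq n 0) := valid_Hq (Nat.zero_le _)
  have iu : Inv n (Hq n p) (prodW (wrd n p)) := by
    simpa using (run_wrd (p := p) (by omega)).inv hpn (inv0 (by omega)) v0
  have ne : ∀ x : Perm ℕ, Bef x a b ↔ ¬ Bef x b a := fun x => by
    have : x.symm a ≠ x.symm b := x.symm.injective.ne hab.ne
    simp only [Bef]; omega
  by_cases c : ∃ i t, El n (Hq n (2 * p)) i t ∧ Cr n a b i t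
  · obtain ⟨i, t, e, cr⟩ := c
    have t2 : t ≤ 2 * p := e.2.2.2.1.trans ((valid_Hq le_rfl).1 i e.1 e.2.1).2.1
    have k : ∀ H x, Valid n p H → Inv n H x → (Bef x b a ↔ t ≤ H i) := fun H x v h => by
      rw [h.2.2.1 a b ha hab hb]
      refine ⟨fun ⟨j, u, e', cr'⟩ => ?_, fun l => ⟨i, t, ⟨e.1, e.2.1, e.2.2.1, l, e.2.2.2.2⟩, cr⟩⟩
      have := v.1 j e'.1 e'.2.1
      have : j = i := by simp only [Cr, El] at *; omega
      subst this
      simp only [Cr, El] at *; omega
    rw [ncard_eq hpn (by omega) _ _ k, ncard_eq hpn (by omega) (Bef · a b) (fun H => ¬ t ≤ H i)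
      fun H x v h => by rw [ne, k H x v h], k _ _ (valid_Hq (by omega)) iu]
    have := count hn hp e.1 e.2.1 e.2.2.2.2
    have := e.2.2.2.2
    have : t ≤ Hq n p i ↔ t ≤ p := by
      simp only [Hq]; rw [if_pos ⟨e.1, e.2.1⟩]; split_ifs <;> omega
    omega
  · have k : ∀ H x, Valid n p H → Inv n H x → (Bef x b a ↔ False) := fun H x v h => by
      rw [h.2.2.1 a b ha hab hb, iff_false]
      rintro ⟨i, t, e, cr⟩
      refine c ⟨i, t, ⟨e.1, e.2.1, e.2.2.1, e.2.2.2.1.trans ?_, e.2.2.2.2⟩, cr⟩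
      have := v.1 i e.1 e.2.1
      simp only [Hq]; rw [if_pos ⟨e.1, e.2.1⟩]; split_ifs <;> omega
    refine ⟨fun h => ((k _ _ (valid_Hq (by omega)) iu).1 h).elim, fun _ => ?_⟩
    rw [ncard_eq hpn (by omega) _ _ k, ncard_eq hpn (by omega) (Bef · a b) (fun _ => True)
      fun H x v h => by rw [ne, k H x v h]; simp]
    simp only [and_false, Set.setOf_false, Set.ncard_empty, and_true]
    exact (Set.ncard_pos fin_valid).2 ⟨_, v0⟩

theorem result (n p : ℕ) (hn : 3 ≤ n) (hp : 1 ≤ p) (hpn : 2 * p ≤ n) :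
    (Dom n p).Finite ∧ ∀ a b, 1 ≤ a → a ≤ n → 1 ≤ b → b ≤ n → a ≠ b →
      ({x ∈ Dom n p | Bef x b a}.ncard < {x ∈ Dom n p | Bef x a b}.ncard ↔
        Bef (prodW (wrd n p)) a b) := by
  refine ⟨?_, fun a b a1 a2 b1 b2 hab => ?_⟩
  · choose f f1 f2 using fun x hx => (dom_iff (x := x) hpn (by omega)).1 hx
    classical
    refine Set.Finite.of_finite_image (f := fun x => if h : x ∈ Dom n p then f x h else 0)
      ((fin_valid (n := n) (p := p)).subset ?_) fun x hx y hy e => ?_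
    · rintro _ ⟨x, hx, rfl⟩
      simp only [dif_pos hx]
      exact f1 x hx
    · simp only [dif_pos hx, dif_pos hy] at e
      exact inv_fun hpn (by omega) (f1 x hx) (f2 x hx) (e ▸ f2 y hy)
  have ne : Bef (prodW (wrd n p)) a b ↔ ¬ Bef (prodW (wrd n p)) b a := by
    have := (prodW (wrd n p)).symm.injective.ne hab
    simp only [Bef]; omega
  rcases lt_or_gt_of_ne hab with h | h
  · obtain ⟨h1, h2⟩ := maj hn hp hpn a1 h b2
    exact ⟨fun k => ne.2 fun c => by have := h1 c; omega, fun k => h2 (ne.1 k)⟩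
  · obtain ⟨h1, h2⟩ := maj hn hp hpn b1 h a2
    exact ⟨fun k => by by_contra c; have := h2 c; omega, h1⟩

end Pool.Agent.Results.MP_43f1fb_co.Full
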